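import Mathlib
import Pool.Agent.H680R3.ZP.Stmts

set_option autoImplicit false

open FF Pool.Agent.H639R3
open scoped IntermediateField TensorProduct

namespace Pool.Agent.H150R3.ZP

section
variable {k K : Type} [Field k] [Field K] [Algebra k K]

/-- elements of `k(z)` have differentials in the line of `dz` -/
theorem D_mem_span (z : K) (e : K) (he : e ∈ k⟮z⟯) : KaehlerDifferential.D k K e ∈
    Submodule.span K {KaehlerDifferential.D k K z} := by
  induction he using IntermediateField.adjoin_induction with
  | mem x hx => rw [Set.mem_singleton_iff.1 hx]; exact Submodule.mem_span_singleton_self _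
  | algebraMap x => rw [Derivation.map_algebraMap]; exact Submodule.zero_mem _
  | add x y _ _ hx hy => rw [map_add]; exact Submodule.add_mem _ hx hy
  | inv x _ hx => rw [Derivation.leibniz_inv]; exact Submodule.smul_mem _ _ hx
  | mul x y _ _ hx hy =>
    rw [Derivation.leibniz]
    exact Submodule.add_mem _ (Submodule.smul_mem _ _ hy) (Submodule.smul_mem _ _ hx)

theorem D_mem_of_sep (t : K) (hsep : Algebra.IsSeparable k⟮t⟯ K) (x : K) :
    KaehlerDifferential.D k K x ∈ Submodule.span K {KaehlerDifferential.D k K t} := by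
  have h1 : Algebra.FormallyUnramified k⟮t⟯ K := Algebra.FormallyUnramified.of_isSeparable _ _
  have h2 : Subsingleton (Ω[K⁄k⟮t⟯]) :=
    Algebra.FormallyUnramified.subsingleton_kaehlerDifferential
  have h0 : KaehlerDifferential.map k k⟮t⟯ K K (KaehlerDifferential.D k K x) = 0 :=
    Subsingleton.elim _ _
  obtain ⟨y, hy⟩ := (KaehlerDifferential.exact_mapBaseChange_map k k⟮t⟯ K _).1 h0
  rw [← hy]
  have key1 : ∀ ω : Ω[k⟮t⟯⁄k], KaehlerDifferential.map k k k⟮t⟯ K ω ∈
      Submodule.span K {KaehlerDifferential.D k K t} := by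
    intro ω
    have hω : ω ∈ Submodule.span k⟮t⟯ (Set.range (KaehlerDifferential.D k k⟮t⟯)) := by
      rw [KaehlerDifferential.span_range_derivation]; trivial
    induction hω using Submodule.span_induction with
    | mem x hx =>
      obtain ⟨e, rfl⟩ := hx
      rw [KaehlerDifferential.map_D]
      exact D_mem_span t _ e.2
    | zero => rw [map_zero]; exact Submodule.zero_mem _
    | add x y _ _ hx hy => rw [map_add]; exact Submodule.add_mem _ hx hy
    | smul a x _ hx =>
      rw [map_smul, ← algebraMap_smul K a]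
      exact Submodule.smul_mem _ _ hx
  induction y using TensorProduct.induction_on generalizing x with
  | zero => rw [map_zero]; exact Submodule.zero_mem _
  | tmul b ω =>
    rw [KaehlerDifferential.mapBaseChange_tmul]
    exact Submodule.smul_mem _ _ (key1 ω)
  | add y z hy' hz' =>
    rw [map_add]
    have aux : ∀ y : K ⊗[k⟮t⟯] Ω[k⟮t⟯⁄k], KaehlerDifferential.mapBaseChange k k⟮t⟯ K y ∈
        Submodule.span K {KaehlerDifferential.D k K t} := by
      intro y
      induction y using TensorProduct.induction_on with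
      | zero => rw [map_zero]; exact Submodule.zero_mem _
      | tmul b ω =>
        rw [KaehlerDifferential.mapBaseChange_tmul]
        exact Submodule.smul_mem _ _ (key1 ω)
      | add y z hy hz => rw [map_add]; exact Submodule.add_mem _ hy hz
    exact Submodule.add_mem _ (aux y) (aux z)

/-- `dz ≠ 0` implies that `K/k(z)` is separable. -/
theorem sep_of_D_ne [h : IsFF k K] (t : K) (hsep : Algebra.IsSeparable k⟮t⟯ K) (z : K)
    (hz : KaehlerDifferential.D k K z ≠ 0) : Algebra.IsSeparable k⟮z⟯ K := by
  have hess := h.ess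
  have hess' : Algebra.EssFiniteType k⟮z⟯ K := Algebra.EssFiniteType.of_comp k k⟮z⟯ K
  obtain ⟨c, hc⟩ := Submodule.mem_span_singleton.1 (D_mem_of_sep t hsep z)
  have hc0 : c ≠ 0 := by
    rintro rfl
    rw [zero_smul] at hc
    exact hz hc.symm
  have hx : ∀ x : K, KaehlerDifferential.D k⟮z⟯ K x = 0 := by
    intro x
    obtain ⟨a, ha⟩ := Submodule.mem_span_singleton.1 (D_mem_of_sep t hsep x)
    have h1 : KaehlerDifferential.D k K x = (a * c⁻¹) • KaehlerDifferential.D k K z := by
      rw [← hc, smul_smul, mul_assoc, inv_mul_cancel₀ hc0, mul_one, ha]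
    have h2 : KaehlerDifferential.map k k⟮z⟯ K K (KaehlerDifferential.D k K x) =
        KaehlerDifferential.D k⟮z⟯ K x := by
      rw [KaehlerDifferential.map_D]; rfl
    have h3 : KaehlerDifferential.map k k⟮z⟯ K K (KaehlerDifferential.D k K z) =
        KaehlerDifferential.D k⟮z⟯ K z := by
      rw [KaehlerDifferential.map_D]; rfl
    have h4 : KaehlerDifferential.D k⟮z⟯ K z = 0 := by
      have := (KaehlerDifferential.D k⟮z⟯ K).map_algebraMap
        (⟨z, IntermediateField.mem_adjoin_simple_self k z⟩ : k⟮z⟯)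
      exact this
    rw [← h2, h1, map_smul, h3, h4, smul_zero]
  have hsub : Subsingleton (Ω[K⁄k⟮z⟯]) := by
    refine subsingleton_of_forall_eq 0 fun ω => ?_
    have hω : ω ∈ Submodule.span K (Set.range (KaehlerDifferential.D k⟮z⟯ K)) := by
      rw [KaehlerDifferential.span_range_derivation]; trivial
    have h5 : Submodule.span K (Set.range (KaehlerDifferential.D k⟮z⟯ K)) ≤ ⊥ := by
      rw [Submodule.span_le]
      rintro _ ⟨x, rfl⟩
      exact hx x
    exact h5 hω
  have h6 : Algebra.FormallyUnramified k⟮z⟯ K := ⟨hsub⟩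
  exact Algebra.FormallyUnramified.isSeparable _ _

/-- `dz ≠ 0` implies that `z` is transcendental. -/
theorem tr_of_D_ne [Finite k] (z : K) (hz : KaehlerDifferential.D k K z ≠ 0) :
    Transcendental k z := by
  intro halg
  apply hz
  have hint := halg.isIntegral
  have h1 := (KaehlerDifferential.D k K).map_aeval (minpoly k z) z
  rw [minpoly.aeval, map_zero] at h1
  have hsep : (minpoly k z).Separable := PerfectField.separable_of_irreducible (minpoly.irreducible hint)
  have h2 := hsep.aeval_derivative_ne_zero (minpoly.aeval k z)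
  exact (smul_eq_zero.1 h1.symm).resolve_left h2

theorem exists_sep [Finite k] [h : IsFF k K] : ∃ t : K, Transcendental k t ∧
    Algebra.IsSeparable k⟮t⟯ K := by
  have hft := h.ess
  have htr := h.trdeg
  obtain ⟨b, hb, hsep⟩ := exists_isTranscendenceBasis_and_isSeparable_of_perfectField k K
  have hcard := hb.cardinalMk_eq_trdeg
  rw [htr] at hcard
  have hb1 : b.card = 1 := by
    have h1 : Cardinal.mk b = (b.card : Cardinal) := Cardinal.mk_coe_finset
    rw [h1] at hcard
    exact_mod_cast hcard
  obtain ⟨t, rfl⟩ := Finset.card_eq_one.mp hb1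
  rw [Finset.coe_singleton] at hsep
  exact ⟨t, hb.1.transcendental ⟨t, by simp⟩, hsep⟩

theorem D_ne_of_sep [Finite k] [h : IsFF k K] (t : K) (ht : Transcendental k t)
    (hsep : Algebra.IsSeparable k⟮t⟯ K) : KaehlerDifferential.D k K t ≠ 0 := by
  intro h0
  have hess := h.ess
  have hsub : Subsingleton (Ω[K⁄k]) := by
    refine subsingleton_of_forall_eq 0 fun ω => ?_
    have hω : ω ∈ Submodule.span K (Set.range (KaehlerDifferential.D k K)) := by
      rw [KaehlerDifferential.span_range_derivation]; trivial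
    have h5 : Submodule.span K (Set.range (KaehlerDifferential.D k K)) ≤ ⊥ := by
      rw [Submodule.span_le]
      rintro _ ⟨x, rfl⟩
      have := D_mem_of_sep t hsep x
      rw [h0] at this
      simpa using this
    exact h5 hω
  have h6 : Algebra.FormallyUnramified k K := ⟨hsub⟩
  have h7 : Algebra.IsSeparable k K := Algebra.FormallyUnramified.isSeparable _ _
  exact ht (Algebra.IsAlgebraic.isAlgebraic t)

theorem D_comb (h g : K) (hDh : KaehlerDifferential.D k K h = 0) :
    KaehlerDifferential.D k K (h + g + h * g) = (1 + h) • KaehlerDifferential.D k K g := by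
  rw [map_add, map_add, Derivation.leibniz, hDh, smul_zero, add_zero, zero_add, add_smul,
    one_smul]

/-- simultaneous positivity -/
theorem exists_pos (S : Finset (Place k K)) : ∃ a : K, a ≠ 0 ∧ ∀ x ∈ S, 0 < x.ord a := by
  classical
  induction S using Finset.induction_on with
  | empty => exact ⟨1, one_ne_zero, by simp⟩
  | insert y S hy ih =>
    obtain ⟨a, ha, hS⟩ := ih
    rcases lt_trichotomy (y.ord a) 0 with hlt | heq | hgt
    · -- `a / (1 + a ^ 2)`
      have ha2 : a ^ 2 ≠ 0 := pow_ne_zero _ ha
      have h1 : y.ord (a ^ 2) < y.ord 1 := by rw [y.ord_one, y.ord_pow]; push_cast; omega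
      obtain ⟨h2, h3⟩ := y.ord_add_eq ha2 one_ne_zero h1
      refine ⟨a / (a ^ 2 + 1), div_ne_zero ha h2, fun x hx => ?_⟩
      rw [x.ord_div ha h2]
      rcases Finset.mem_insert.1 hx with rfl | hx
      · rw [h3, x.ord_pow]; push_cast; omega
      · have h4 := hS x hx
        have h5 : x.ord 1 < x.ord (a ^ 2) := by rw [x.ord_one, x.ord_pow]; push_cast; omega
        obtain ⟨-, h6⟩ := x.ord_add_eq one_ne_zero ha2 h5
        rw [add_comm, h6, x.ord_one]; omega
    · obtain ⟨π, hπ, h1⟩ := y.surj
      set M : ℕ := 1 + ∑ x ∈ S, (x.ord π).natAbs with hM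
      refine ⟨a ^ M * π, mul_ne_zero (pow_ne_zero _ ha) hπ, fun x hx => ?_⟩
      rw [x.ord_mul (pow_ne_zero _ ha) hπ, x.ord_pow]
      rcases Finset.mem_insert.1 hx with rfl | hx
      · rw [heq, h1]; omega
      · have h4 := hS x hx
        have h5 : (x.ord π).natAbs ≤ ∑ x ∈ S, (x.ord π).natAbs :=
          Finset.single_le_sum (f := fun x : Place k K => (x.ord π).natAbs)
            (fun _ _ => Nat.zero_le _) hx
        have h6 : ((x.ord π).natAbs : ℤ) + 1 ≤ (M : ℤ) := by exact_mod_cast (by omega)
        have h7 : (M : ℤ) ≤ (M : ℤ) * x.ord a := le_mul_of_one_le_right (by positivity) h4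
        have h8 : -((x.ord π).natAbs : ℤ) ≤ x.ord π := by omega
        omega
    · refine ⟨a, ha, fun x hx => ?_⟩
      rcases Finset.mem_insert.1 hx with rfl | hx
      · exact hgt
      · exact hS x hx

end

theorem taskSep : H680ZP.TaskSep := by
  intro k K _ _ _ _ hFF S N
  obtain ⟨t, ht, hsep⟩ := exists_sep (k := k) (K := K)
  have hDt := D_ne_of_sep t ht hsep
  have ht0 : t ≠ 0 := by
    rintro rfl
    exact ht (isAlgebraic_zero)
  obtain ⟨a, ha, hS⟩ := exists_pos S
  obtain ⟨p, hp⟩ := CharP.exists k
  have hpp : p ≠ 0 := by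
    rintro rfl
    have := CharP.charP_to_charZero k
    exact (Infinite.of_injective (Nat.cast : ℕ → k) Nat.cast_injective).not_finite ‹_›
  have hpK : CharP K p := charP_of_injective_algebraMap (algebraMap k K).injective p
  set M : ℕ := N + 1 + ∑ x ∈ S, (x.ord t).natAbs with hM
  set b : K := a ^ M with hb
  have hb0 : b ≠ 0 := pow_ne_zero _ ha
  have hbp : b ^ p ≠ 0 := pow_ne_zero _ hb0
  have hDb : KaehlerDifferential.D k K (b ^ p) = 0 := by
    rw [Derivation.leibniz_pow]
    have : (p : ℕ) • (b ^ (p - 1) • KaehlerDifferential.D k K b) =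
        (p : K) • (b ^ (p - 1) • KaehlerDifferential.D k K b) := by
      rw [Nat.cast_smul_eq_nsmul]
    rw [this, CharP.cast_eq_zero, zero_smul]
  set g : K := b ^ p * t with hg
  have hDg : KaehlerDifferential.D k K g = b ^ p • KaehlerDifferential.D k K t := by
    rw [hg, Derivation.leibniz, hDb, smul_zero, add_zero]
  have hDg0 : KaehlerDifferential.D k K g ≠ 0 := by
    rw [hDg]
    exact smul_ne_zero hbp hDt
  refine ⟨g, tr_of_D_ne g hDg0, sep_of_D_ne t hsep g hDg0, fun x hx => ?_, fun h hh htr => ?_⟩
  · rw [hg, x.ord_mul hbp ht0, x.ord_pow, hb, x.ord_pow]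
    have h4 := hS x hx
    have h5 : (x.ord t).natAbs ≤ ∑ x ∈ S, (x.ord t).natAbs :=
      Finset.single_le_sum (f := fun x : Place k K => (x.ord t).natAbs)
        (fun _ _ => Nat.zero_le _) hx
    have h6 : (N : ℤ) + 1 + ((x.ord t).natAbs : ℤ) ≤ (M : ℤ) := by exact_mod_cast (by omega)
    have h7 : (M : ℤ) ≤ (M : ℤ) * x.ord a := le_mul_of_one_le_right (by positivity) h4
    have h9 : (1 : ℤ) ≤ p := by exact_mod_cast Nat.one_le_iff_ne_zero.2 hpp
    have h10 : (M : ℤ) * x.ord a ≤ p * ((M : ℤ) * x.ord a) :=
      le_mul_of_one_le_left (by positivity) h9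
    have h8 : -((x.ord t).natAbs : ℤ) ≤ x.ord t := by omega
    linarith
  · by_cases hDh : KaehlerDifferential.D k K h = 0
    · right
      have hD : KaehlerDifferential.D k K (h + g + h * g) =
          (1 + h) • KaehlerDifferential.D k K g := by
        exact D_comb h g hDh
      have hne : KaehlerDifferential.D k K (h + g + h * g) ≠ 0 := by
        rw [hD]
        refine smul_ne_zero ?_ hDg0
        intro h0
        exact hh (by linear_combination h0)
      exact ⟨tr_of_D_ne _ hne, sep_of_D_ne t hsep _ hne⟩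
    · left
      exact sep_of_D_ne t hsep h hDh

end Pool.Agent.H150R3.ZP
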